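import Pool.Agent.Run7.h356.LP.Stm

/-!
# Project LP (MP_85210c_gt, helper356), piece BET (helper304): a Beta integral
-/

set_option autoImplicit false

noncomputable section

open MeasureTheory Filter Topology Set

namespace Pool.Agent.Run7.h304.LP

open H356LP

theorem real_beta {a b : ℝ} (ha : 0 < a) (hb : 0 < b) (hab : a + b = 1) :
    IntegrableOn (fun x : ℝ => x ^ (a - 1) * (1 - x) ^ (b - 1)) (Ioo 0 1) ∧
    ∫ x in Ioo (0 : ℝ) 1, x ^ (a - 1) * (1 - x) ^ (b - 1) = Real.Gamma a * Real.Gamma b := by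
  have hau : 0 < ((a : ℂ)).re := by simpa using ha
  have hbu : 0 < ((b : ℂ)).re := by simpa using hb
  have h1 := Complex.betaIntegral_convergent hau hbu
  have h2 : IntegrableOn (fun x : ℝ => (x : ℂ) ^ ((a : ℂ) - 1) * (1 - (x : ℂ)) ^ ((b : ℂ) - 1)) (Ioo 0 1) :=
    ((intervalIntegrable_iff_integrableOn_Ioc_of_le zero_le_one).1 h1).mono_set Ioo_subset_Ioc_self
  have h3 : ∀ x ∈ Ioo (0 : ℝ) 1, (x : ℂ) ^ ((a : ℂ) - 1) * (1 - (x : ℂ)) ^ ((b : ℂ) - 1) =
      ((x ^ (a - 1) * (1 - x) ^ (b - 1) : ℝ) : ℂ) := by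
    intro x hx
    rw [Complex.ofReal_mul, Complex.ofReal_cpow hx.1.le, Complex.ofReal_cpow (sub_nonneg.2 hx.2.le)]
    push_cast
    rfl
  have h4 : IntegrableOn (fun x : ℝ => ((x ^ (a - 1) * (1 - x) ^ (b - 1) : ℝ) : ℂ)) (Ioo 0 1) :=
    h2.congr_fun h3 measurableSet_Ioo
  refine ⟨?_, ?_⟩
  · have h5 : IntegrableOn (fun x : ℝ => (((x ^ (a - 1) * (1 - x) ^ (b - 1) : ℝ) : ℂ)).re) (Ioo 0 1) := h4.re
    simpa only [Complex.ofReal_re] using h5
  · have h5 := Complex.Gamma_mul_Gamma_eq_betaIntegral hau hbu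
    have h6 : Complex.betaIntegral a b = ((∫ x in Ioo (0 : ℝ) 1, x ^ (a - 1) * (1 - x) ^ (b - 1) : ℝ) : ℂ) := by
      rw [Complex.betaIntegral, intervalIntegral.integral_of_le zero_le_one, integral_Ioc_eq_integral_Ioo,
        setIntegral_congr_fun measurableSet_Ioo h3]
      exact integral_ofReal
    rw [h6, show (a : ℂ) + b = 1 by exact_mod_cast hab, Complex.Gamma_one, one_mul, Complex.Gamma_ofReal,
      Complex.Gamma_ofReal] at h5
    exact_mod_cast h5.symm

/-- the Beta integral by `u = sin² θ` -/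
theorem BET : S_BET := by
  intro p q hp hpq
  have hp0 : 0 < p := by linarith
  have hq0 : 0 < q := hpq.symm.pos
  have hsum : 1 / q + 1 / p = 1 := by
    have := hpq.inv_add_inv_eq_one
    rw [one_div, one_div]; linarith
  obtain ⟨hI, hV⟩ := real_beta (show 0 < 1 / q by positivity) (show 0 < 1 / p by positivity) hsum
  set s : Set ℝ := Ioo 0 (Real.pi / 2) with hs
  set f : ℝ → ℝ := fun θ => Real.sin θ ^ 2 with hf
  set f' : ℝ → ℝ := fun θ => 2 * Real.sin θ * Real.cos θ with hf'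
  have hpi := Real.pi_pos
  have hsin : ∀ θ ∈ s, 0 < Real.sin θ := fun θ h => Real.sin_pos_of_pos_of_lt_pi h.1 (by linarith [h.2])
  have hcos : ∀ θ ∈ s, 0 < Real.cos θ := fun θ h => Real.cos_pos_of_mem_Ioo ⟨by linarith [h.1], h.2⟩
  have hder : ∀ θ ∈ s, HasDerivWithinAt f (f' θ) s θ := by
    intro θ _
    have h := (Real.hasDerivAt_sin θ).mul (Real.hasDerivAt_sin θ)
    have h2 : HasDerivAt f (f' θ) θ := by
      have h3 : f = Real.sin * Real.sin := by
        funext t
        show Real.sin t ^ 2 = Real.sin t * Real.sin t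
        ring
      rw [h3]
      refine h.congr_deriv ?_
      show _ = 2 * Real.sin θ * Real.cos θ
      ring
    exact h2.hasDerivWithinAt
  have hinj : InjOn f s := by
    intro x hx y hy h
    have h1 : Real.sin x = Real.sin y := by
      have := hsin x hx; have := hsin y hy
      nlinarith [show Real.sin x ^ 2 = Real.sin y ^ 2 from h]
    exact Real.injOn_sin ⟨by linarith [hx.1], hx.2.le⟩ ⟨by linarith [hy.1], hy.2.le⟩ h1
  have himg : f '' s = Ioo 0 1 := by
    ext u
    constructor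
    · rintro ⟨θ, hθ, rfl⟩
      have h1 := hsin θ hθ
      have h2 := hcos θ hθ
      have h3 := Real.sin_sq_add_cos_sq θ
      refine ⟨by positivity, ?_⟩
      show Real.sin θ ^ 2 < 1
      nlinarith [pow_pos h2 2]
    · rintro ⟨hu0, hu1⟩
      refine ⟨Real.arcsin (√u), ⟨?_, ?_⟩, ?_⟩
      · exact Real.arcsin_pos.2 (Real.sqrt_pos.2 hu0)
      · exact Real.arcsin_lt_pi_div_two.2 (by rw [Real.sqrt_lt' one_pos]; simpa using hu1)
      · show Real.sin (Real.arcsin (√u)) ^ 2 = u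
        rw [Real.sin_arcsin (by linarith [Real.sqrt_nonneg u]) (Real.sqrt_le_one.2 hu1.le), Real.sq_sqrt hu0.le]
  have hkey : ∀ θ ∈ s, |f' θ| • ((f θ) ^ (1 / q - 1) * (1 - f θ) ^ (1 / p - 1)) =
      2 * (|Real.sin θ| ^ (2 / q - 1) * |Real.cos θ| ^ (2 / p - 1)) := by
    intro θ hθ
    have h1 := hsin θ hθ
    have h2 := hcos θ hθ
    have h3 : 1 - f θ = Real.cos θ ^ 2 := by
      have := Real.sin_sq_add_cos_sq θ
      show 1 - Real.sin θ ^ 2 = _
      linarith
    have h4 : (Real.sin θ ^ 2) ^ (1 / q - 1) * Real.sin θ = Real.sin θ ^ (2 / q - 1) := by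
      rw [← Real.rpow_natCast, ← Real.rpow_mul h1.le]
      nth_rw 2 [← Real.rpow_one (Real.sin θ)]
      rw [← Real.rpow_add h1]
      congr 1
      push_cast; ring
    have h5 : (Real.cos θ ^ 2) ^ (1 / p - 1) * Real.cos θ = Real.cos θ ^ (2 / p - 1) := by
      rw [← Real.rpow_natCast, ← Real.rpow_mul h2.le]
      nth_rw 2 [← Real.rpow_one (Real.cos θ)]
      rw [← Real.rpow_add h2]
      congr 1
      push_cast; ring
    rw [h3, abs_of_pos h1, abs_of_pos h2, smul_eq_mul, abs_of_pos (show 0 < f' θ by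
      show 0 < 2 * Real.sin θ * Real.cos θ
      positivity)]
    show 2 * Real.sin θ * Real.cos θ * ((Real.sin θ ^ 2) ^ (1 / q - 1) * (Real.cos θ ^ 2) ^ (1 / p - 1)) = _
    rw [← h4, ← h5]; ring
  have hI2 : IntegrableOn (fun θ => 2 * (|Real.sin θ| ^ (2 / q - 1) * |Real.cos θ| ^ (2 / p - 1))) s := by
    rw [← himg] at hI
    have := (integrableOn_image_iff_integrableOn_abs_deriv_smul measurableSet_Ioo hder hinj _).1 hI
    exact this.congr_fun hkey measurableSet_Ioo
  have hI3 : IntegrableOn (fun θ => |Real.sin θ| ^ (2 / q - 1) * |Real.cos θ| ^ (2 / p - 1)) s := by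
    have h : IntegrableOn (fun θ => 1 / 2 * (2 * (|Real.sin θ| ^ (2 / q - 1) * |Real.cos θ| ^ (2 / p - 1)))) s :=
      hI2.const_mul (1 / 2 : ℝ)
    refine h.congr_fun (fun θ _ => ?_) measurableSet_Ioo
    show 1 / 2 * (2 * _) = _
    ring
  have hV2 : ∫ θ in s, 2 * (|Real.sin θ| ^ (2 / q - 1) * |Real.cos θ| ^ (2 / p - 1)) =
      Real.Gamma (1 / q) * Real.Gamma (1 / p) := by
    rw [← hV, ← himg, integral_image_eq_integral_abs_deriv_smul measurableSet_Ioo hder hinj]
    exact (setIntegral_congr_fun measurableSet_Ioo hkey).symm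
  refine ⟨?_, ?_⟩
  · rw [intervalIntegrable_iff_integrableOn_Ioc_of_le (by positivity), integrableOn_Ioc_iff_integrableOn_Ioo]
    exact hI3
  · rw [intervalIntegral.integral_of_le (by positivity), integral_Ioc_eq_integral_Ioo]
    rw [integral_const_mul] at hV2
    linarith

end Pool.Agent.Run7.h304.LP

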