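import Pool.Agent.Run7.h356.LP.Stm

/-!
# Project LP (MP_85210c_gt, helper356), piece PI (helper304): products of measures
-/

set_option autoImplicit false

noncomputable section

open MeasureTheory Filter Topology Set
open scoped BigOperators ENNReal

namespace Pool.Agent.Run7.h304.LP

open H712MA H356LP

theorem cons_meas {E : Type*} [MeasurableSpace E] (n : ℕ) :
    Measurable fun z : E × (Fin n → E) => (Fin.cons z.1 z.2 : Fin (n + 1) → E) := by
  refine measurable_pi_iff.2 fun i => ?_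
  refine Fin.cases ?_ (fun j => ?_) i
  · simpa using measurable_fst
  · simp only [Fin.cons_succ]
    fun_prop

/-- Tonelli for `Fin (n + 1) → E` -/
theorem lint_cons {E : Type*} [MeasurableSpace E] (μ : Measure E) [SigmaFinite μ] (n : ℕ)
    (F : (Fin (n + 1) → E) → ℝ≥0∞) (hF : Measurable F) :
    ∫⁻ t, F t ∂(Measure.pi fun _ : Fin (n + 1) => μ) =
      ∫⁻ x, ∫⁻ y, F (Fin.cons x y) ∂(Measure.pi fun _ : Fin n => μ) ∂μ := by
  have mp := (measurePreserving_piFinSuccAbove (fun _ : Fin (n + 1) => μ) 0).symm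
  have h1 := mp.lintegral_comp hF
  rw [← h1, lintegral_prod (fun z : E × (Fin n → E) => F ((MeasurableEquiv.piFinSuccAbove (fun _ => E) 0).symm z))
    (hF.comp (MeasurableEquiv.measurable _)).aemeasurable]
  refine lintegral_congr fun x => lintegral_congr fun y => ?_
  congr 1
  show Fin.insertNth (α := fun _ => E) 0 x y = Fin.cons x y
  rw [Fin.insertNth_zero']

section
variable (w : ℂ → ℝ≥0∞) (hw : Measurable w) (c : ℝ≥0∞) (τ : ℝ → ℝ → ℂ)
  (hτ : Measurable (Function.uncurry τ)) (α β : Measure ℝ) [SigmaFinite α] [SigmaFinite β]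

/-- the double integral -/
def II (n : ℕ) (X : (Fin n → ℂ) → ℝ≥0∞) : ℝ≥0∞ :=
  ∫⁻ v, ∫⁻ φ, X (fun i => τ (v i) (φ i)) ∂(Measure.pi fun _ : Fin n => β) ∂(Measure.pi fun _ : Fin n => α)

include hτ in
theorem vec_meas (n : ℕ) : Measurable fun z : (Fin n → ℝ) × (Fin n → ℝ) => fun i => τ (z.1 i) (z.2 i) := by
  refine measurable_pi_iff.2 fun i => ?_
  have h1 : Measurable fun z : (Fin n → ℝ) × (Fin n → ℝ) => (z.1 i, z.2 i) :=
    ((measurable_pi_apply i).comp measurable_fst).prodMk ((measurable_pi_apply i).comp measurable_snd)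
  exact hτ.comp h1

theorem cons_vec (n : ℕ) (v0 φ0 : ℝ) (v φ : Fin n → ℝ) :
    (fun i => τ ((Fin.cons v0 v : Fin (n + 1) → ℝ) i) ((Fin.cons φ0 φ : Fin (n + 1) → ℝ) i)) =
      (Fin.cons (τ v0 φ0) (fun i => τ (v i) (φ i)) : Fin (n + 1) → ℂ) := by
  funext i
  refine Fin.cases ?_ (fun j => ?_) i
  · simp
  · simp

include hτ in
theorem II_meas (n : ℕ) {E : Type*} [MeasurableSpace E] (X : E → (Fin n → ℂ) → ℝ≥0∞)
    (hX : Measurable (Function.uncurry X)) : Measurable fun e => II τ α β n (X e) := by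
  unfold II
  refine Measurable.lintegral_prod_right' (f := fun z : E × (Fin n → ℝ) =>
    ∫⁻ φ, X z.1 (fun i => τ (z.2 i) (φ i)) ∂(Measure.pi fun _ : Fin n => β)) ?_
  refine Measurable.lintegral_prod_right' (f := fun z : (E × (Fin n → ℝ)) × (Fin n → ℝ) =>
    X z.1.1 (fun i => τ (z.1.2 i) (z.2 i))) ?_
  refine hX.comp ((measurable_fst.comp measurable_fst).prodMk ?_)
  exact (vec_meas τ hτ n).comp ((measurable_snd.comp measurable_fst).prodMk measurable_snd)

include hτ in
theorem II_succ (n : ℕ) (X : (Fin (n + 1) → ℂ) → ℝ≥0∞) (hX : Measurable X) :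
    II τ α β (n + 1) X = ∫⁻ v0, ∫⁻ φ0, II τ α β n (fun t => X (Fin.cons (τ v0 φ0) t)) ∂β ∂α := by
  have hv := vec_meas τ hτ (n + 1)
  unfold II
  rw [lint_cons α n _ (Measurable.lintegral_prod_right' (f := fun z : (Fin (n + 1) → ℝ) × (Fin (n + 1) → ℝ) =>
    X (fun i => τ (z.1 i) (z.2 i))) (hX.comp hv))]
  refine lintegral_congr fun v0 => ?_
  have h1 : ∀ v : Fin n → ℝ, ∫⁻ φ, X (fun i => τ ((Fin.cons v0 v : Fin (n + 1) → ℝ) i) (φ i))
      ∂(Measure.pi fun _ : Fin (n + 1) => β) =
      ∫⁻ φ0, ∫⁻ φ, X (Fin.cons (τ v0 φ0) (fun i => τ (v i) (φ i))) ∂(Measure.pi fun _ : Fin n => β) ∂β := by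
    intro v
    have hm : Measurable fun φ : Fin (n + 1) → ℝ => X (fun i => τ ((Fin.cons v0 v : Fin (n + 1) → ℝ) i) (φ i)) := by
      have h2 : Measurable fun φ : Fin (n + 1) → ℝ => ((Fin.cons v0 v : Fin (n + 1) → ℝ), φ) :=
        measurable_const.prodMk measurable_id
      exact hX.comp (hv.comp h2)
    rw [lint_cons β n (fun φ : Fin (n + 1) → ℝ => X (fun i => τ ((Fin.cons v0 v : Fin (n + 1) → ℝ) i) (φ i))) hm]
    refine lintegral_congr fun φ0 => lintegral_congr fun φ => ?_
    exact congrArg X (cons_vec τ n v0 φ0 v φ)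
  simp_rw [h1]
  rw [lintegral_lintegral_swap]
  refine Measurable.aemeasurable ?_
  show Measurable fun z : (Fin n → ℝ) × ℝ => ∫⁻ φ, X (Fin.cons (τ v0 z.2) (fun i => τ (z.1 i) (φ i)))
    ∂(Measure.pi fun _ : Fin n => β)
  refine Measurable.lintegral_prod_right' (f := fun z : ((Fin n → ℝ) × ℝ) × (Fin n → ℝ) =>
    X (Fin.cons (τ v0 z.1.2) (fun i => τ (z.1.1 i) (z.2 i)))) ?_
  refine hX.comp ((cons_meas n).comp (Measurable.prodMk ?_ ?_))
  · exact hτ.comp (measurable_const.prodMk (measurable_snd.comp measurable_fst))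
  · exact (vec_meas τ hτ n).comp ((measurable_fst.comp measurable_fst).prodMk measurable_snd)

include hw in
theorem prod_succ (n : ℕ) (X : (Fin (n + 1) → ℂ) → ℝ≥0∞) (hX : Measurable X) :
    ∫⁻ t : Fin (n + 1) → ℂ, X t * ∏ i, w (t i) =
      ∫⁻ t0 : ℂ, (∫⁻ t : Fin n → ℂ, X (Fin.cons t0 t) * ∏ i, w (t i)) * w t0 := by
  have hp : ∀ m : ℕ, Measurable fun t : Fin m → ℂ => ∏ i, w (t i) := fun m =>
    Finset.measurable_fun_prod _ fun i _ => hw.comp (measurable_pi_apply i)
  rw [volume_pi, lint_cons volume n (fun t : Fin (n + 1) → ℂ => X t * ∏ i, w (t i)) (hX.mul (hp (n + 1)))]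
  refine lintegral_congr fun t0 => ?_
  rw [← volume_pi, ← lintegral_mul_const]
  · refine lintegral_congr fun t => ?_
    rw [Fin.prod_univ_succ, Fin.cons_zero]
    simp only [Fin.cons_succ]
    ring
  · exact (hX.comp ((cons_meas n).comp (measurable_const.prodMk measurable_id))).mul (hp n)

include hw hτ in
/-- lower bounds -/
theorem pi_ge (h : ∀ G : ℂ → ℝ≥0∞, Measurable G → c * ∫⁻ v, ∫⁻ φ, G (τ v φ) ∂β ∂α ≤ ∫⁻ t, G t * w t) :
    ∀ (n : ℕ) (X : (Fin n → ℂ) → ℝ≥0∞), Measurable X →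
      c ^ n * II τ α β n X ≤ ∫⁻ t : Fin n → ℂ, X t * ∏ i, w (t i) := by
  intro n
  induction n with
  | zero =>
    intro X hX
    unfold II
    have e : ∀ t : Fin 0 → ℂ, X t = X default := fun t => by rw [Subsingleton.elim t default]
    simp only [e, lintegral_const, pow_zero, one_mul, Finset.univ_eq_empty, Finset.prod_empty, mul_one]
    simp [volume_pi]
  | succ n ih =>
    intro X hX
    rw [prod_succ w hw n X hX, II_succ τ hτ α β n X hX, pow_succ, mul_assoc]
    have hm : Measurable fun t0 : ℂ => II τ α β n (fun t => X (Fin.cons t0 t)) :=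
      II_meas τ hτ α β n (fun t0 t => X (Fin.cons t0 t)) (hX.comp (cons_meas n))
    calc c ^ n * (c * ∫⁻ v0, ∫⁻ φ0, II τ α β n (fun t => X (Fin.cons (τ v0 φ0) t)) ∂β ∂α)
        ≤ c ^ n * ∫⁻ t0, II τ α β n (fun t => X (Fin.cons t0 t)) * w t0 :=
          mul_le_mul_right (h _ hm) _
      _ = ∫⁻ t0, (c ^ n * II τ α β n (fun t => X (Fin.cons t0 t))) * w t0 := by
          have h3 : Measurable fun t0 => II τ α β n (fun t => X (Fin.cons t0 t)) * w t0 := hm.mul hw
          rw [← lintegral_const_mul _ h3]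
          simp only [mul_assoc]
      _ ≤ _ := lintegral_mono fun t0 => mul_le_mul_left (ih _ (hX.comp ((cons_meas n).comp
          (measurable_const.prodMk measurable_id)))) _

include hw hτ in
/-- upper bounds -/
theorem pi_le (h : ∀ G : ℂ → ℝ≥0∞, Measurable G → ∫⁻ t, G t * w t ≤ c * ∫⁻ v, ∫⁻ φ, G (τ v φ) ∂β ∂α) :
    ∀ (n : ℕ) (X : (Fin n → ℂ) → ℝ≥0∞), Measurable X →
      ∫⁻ t : Fin n → ℂ, X t * ∏ i, w (t i) ≤ c ^ n * II τ α β n X := by
  intro n
  induction n with
  | zero =>
    intro X hX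
    unfold II
    have e : ∀ t : Fin 0 → ℂ, X t = X default := fun t => by rw [Subsingleton.elim t default]
    simp only [e, lintegral_const, pow_zero, one_mul, Finset.univ_eq_empty, Finset.prod_empty, mul_one]
    simp [volume_pi]
  | succ n ih =>
    intro X hX
    rw [prod_succ w hw n X hX, II_succ τ hτ α β n X hX, pow_succ, mul_assoc]
    have hm : Measurable fun t0 : ℂ => II τ α β n (fun t => X (Fin.cons t0 t)) :=
      II_meas τ hτ α β n (fun t0 t => X (Fin.cons t0 t)) (hX.comp (cons_meas n))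
    calc ∫⁻ t0 : ℂ, (∫⁻ t : Fin n → ℂ, X (Fin.cons t0 t) * ∏ i, w (t i)) * w t0
        ≤ ∫⁻ t0, (c ^ n * II τ α β n (fun t => X (Fin.cons t0 t))) * w t0 :=
          lintegral_mono fun t0 => mul_le_mul_left (ih _ (hX.comp ((cons_meas n).comp
          (measurable_const.prodMk measurable_id)))) _
      _ = c ^ n * ∫⁻ t0, II τ α β n (fun t => X (Fin.cons t0 t)) * w t0 := by
          have h3 : Measurable fun t0 => II τ α β n (fun t => X (Fin.cons t0 t)) * w t0 := hm.mul hw
          rw [← lintegral_const_mul _ h3]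
          simp only [mul_assoc]
      _ ≤ _ := mul_le_mul_right (h _ hm) _

end

theorem restrict_pi' (n : ℕ) (s : Set ℝ) :
    (volume : Measure (Fin n → ℝ)).restrict {v | ∀ i, v i ∈ s} =
      Measure.pi fun _ : Fin n => (volume : Measure ℝ).restrict s := by
  rw [← Measure.restrict_pi_pi, ← volume_pi]
  congr 1
  ext v
  simp

theorem meas_e' (L : Lens) : Measurable L.e := by
  classical
  have h : L.e = L.W.piecewise L.e (fun _ => 1) := by
    funext p
    by_cases hp : p ∈ L.W
    · rw [Set.piecewise_eq_of_mem _ _ _ hp]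
    · rw [Set.piecewise_eq_of_notMem _ _ _ hp, L.off p hp]
  rw [h]
  exact ContinuousOn.measurable_piecewise L.diff.continuousOn continuousOn_const
    L.isOpen.measurableSet

theorem meas_af (L : Lens) (m : ℕ) : Measurable (af L m) := by
  classical
  have h1 : Measurable (gd L m) := by
    unfold gd
    exact Measurable.ite L.isOpen.measurableSet
      ((measurable_const.mul ((meas_e' L).pow_const _)).mul (measurable_deriv _)) measurable_const
  unfold af
  exact h1.norm.pow_const 2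

theorem ee_meas : Measurable ee := by
  unfold ee
  exact (by fun_prop : Continuous fun φ : ℝ => Complex.exp (φ * Complex.I)).measurable

/-- products of `push` and `chg` -/
theorem PI : S_PI := by
  intro p q D n X hX
  have hA : Ang n = {v : Fin n → ℝ | ∀ i, v i ∈ Ioo (-Real.pi) Real.pi} := rfl
  refine ⟨fun m hm => ?_, ?_⟩
  · have hC : Cub n = {v : Fin n → ℝ | ∀ i, v i ∈ Ioo (0 : ℝ) 1} := rfl
    have hτ : Measurable (Function.uncurry (D.H m)) := by
      refine D.hmeas.comp (Measurable.mul ?_ (ee_meas.comp measurable_snd))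
      exact Complex.measurable_ofReal.comp (measurable_fst.pow_const _)
    have h1 := pi_le (fun t => ENNReal.ofReal (af D.L m t)) (meas_af D.L m).ennreal_ofReal
      (ENNReal.ofReal ((m : ℝ) / 2)) (D.H m) hτ (volume.restrict (Ioo 0 1))
      (volume.restrict (Ioo (-Real.pi) Real.pi)) (fun G hG => (D.push m hm G hG).le) n X hX
    unfold II at h1
    rwa [← restrict_pi', ← restrict_pi', ← hA, ← hC] at h1
  · have hC : Pos n = {v : Fin n → ℝ | ∀ i, v i ∈ Ioi (0 : ℝ)} := rfl
    have hτ : Measurable (Function.uncurry D.T) := by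
      refine Measurable.mul ?_ (D.hmeas.comp (ee_meas.comp measurable_snd))
      exact Complex.measurable_ofReal.comp (measurable_fst.pow_const _)
    have h1 := pi_ge (fun t => ENNReal.ofReal (D.rho t)) D.rmeas.ennreal_ofReal
      (ENNReal.ofReal D.k) D.T hτ (volume.restrict (Ioi 0))
      (volume.restrict (Ioo (-Real.pi) Real.pi)) (fun G hG => D.chg G hG) n X hX
    unfold II at h1
    rwa [← restrict_pi', ← restrict_pi', ← hA, ← hC] at h1

end Pool.Agent.Run7.h304.LP

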