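import Pool.Agent.Run7.h356.LP.Stm

/-!
# Project LP (MP_85210c_gt, helper356), piece SP (helper304): splitting of an exponential integral
-/

set_option autoImplicit false

noncomputable section

open MeasureTheory Filter Topology Set
open scoped BigOperators ENNReal

namespace Pool.Agent.Run7.h304.LP.SPn

open H356LP

theorem lintegral_fin_prod {n : ℕ} (μ : Fin n → Measure ℝ)
    [∀ i, SigmaFinite (μ i)] (f : Fin n → ℝ → ℝ≥0∞) (hf : ∀ i, Measurable (f i)) :
    ∫⁻ x : Fin n → ℝ, ∏ i, f i (x i) ∂(Measure.pi μ) = ∏ i, ∫⁻ x, f i x ∂(μ i) := by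
  induction n with
  | zero => simp
  | succ n n_ih =>
      calc
        _ = ∫⁻ x : ℝ × (Fin n → ℝ),
            f 0 x.1 * ∏ i : Fin n, f (Fin.succ i) (x.2 i)
            ∂((μ 0).prod (Measure.pi (fun i ↦ μ i.succ))) := by
          rw [← ((measurePreserving_piFinSuccAbove μ 0).symm).lintegral_comp_emb
            (MeasurableEquiv.measurableEmbedding _)]
          simp_rw [MeasurableEquiv.piFinSuccAbove_symm_apply, Fin.insertNthEquiv,
            Fin.prod_univ_succ, Fin.insertNth_zero, Equiv.coe_fn_mk, Fin.cons_succ,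
            Fin.zero_succAbove, cast_eq, Fin.cons_zero]
        _ = (∫⁻ x, f 0 x ∂μ 0)
            * ∏ i : Fin n, ∫⁻ (x : ℝ), f (Fin.succ i) x ∂(μ i.succ) := by
          rw [← n_ih (fun i => μ i.succ) (fun i => f i.succ) (fun i => hf _)]
          exact lintegral_prod_mul (hf 0).aemeasurable (Finset.measurable_prod _ (fun i _ =>
            (hf _).comp (measurable_pi_apply i))).aemeasurable
        _ = ∏ i, ∫⁻ x, f i x ∂(μ i) := by rw [Fin.prod_univ_succ]

theorem lintegral_fintype_prod {ι : Type*} [Fintype ι] (f : ι → ℝ → ℝ≥0∞)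
    (hf : ∀ i, Measurable (f i)) :
    ∫⁻ x : ι → ℝ, ∏ i, f i (x i) = ∏ i, ∫⁻ x, f i x := by
  rw [volume_pi]
  let e := (Fintype.equivFin ι).symm
  rw [← (measurePreserving_piCongrLeft _ e).lintegral_comp_emb
    (MeasurableEquiv.measurableEmbedding _)]
  simp_rw [← e.prod_comp, MeasurableEquiv.coe_piCongrLeft, Equiv.piCongrLeft_apply_apply]
  exact lintegral_fin_prod (fun i => volume) (fun i => f (e i)) (fun i => hf _)

open Classical in
/-- Splitting of the coordinates along an injective tuple. -/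
theorem mp_split {κ : Type} [Fintype κ] {d : ℕ} (a : Fin d → κ) (ha : Function.Injective a) :
    MeasurePreserving (fun c : κ → ℝ =>
      ((fun k => c (a k)), (fun i : {i : κ // ¬ ∃ k, a k = i} => c i)))
      volume (volume.prod volume) := by
  have h1 := volume_preserving_piEquivPiSubtypeProd (fun _ : κ => ℝ) (fun i => ∃ k, a k = i)
  let e : Fin d ≃ {i : κ // ∃ k, a k = i} := Equiv.ofInjective a ha
  have h2 := (volume_measurePreserving_piCongrLeft (fun _ : {i : κ // ∃ k, a k = i} => ℝ) e).symm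
  have h1' : MeasurePreserving (MeasurableEquiv.piEquivPiSubtypeProd (fun _ : κ => ℝ)
      (fun i => ∃ k, a k = i)) volume
      ((volume : Measure ({i : κ // ∃ k, a k = i} → ℝ)).prod
        (volume : Measure ({i : κ // ¬ ∃ k, a k = i} → ℝ))) := by
    rw [← Measure.volume_eq_prod]
    exact h1
  have h3 := (h2.prod (MeasurePreserving.id
    (volume : Measure ({i : κ // ¬ ∃ k, a k = i} → ℝ)))).comp h1'
  exact h3

/-- the density -/
def g (x : ℝ) : ℝ≥0∞ := (Ioi (0 : ℝ)).indicator (fun x => ENNReal.ofReal (Real.exp (-x))) x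

theorem g_meas : Measurable g := by
  unfold g
  refine Measurable.indicator ?_ measurableSet_Ioi
  exact (by fun_prop : Continuous fun x : ℝ => Real.exp (-x)).measurable.ennreal_ofReal

theorem g_pos {x : ℝ} (hx : 0 < x) : g x = ENNReal.ofReal (Real.exp (-x)) := indicator_of_mem (mem_Ioi.2 hx) _

theorem prod_g {ι : Type*} [Fintype ι] (s : ι → ℝ) (hs : ∀ i, 0 < s i) :
    ENNReal.ofReal (Real.exp (-∑ i, s i)) = ∏ i, g (s i) := by
  rw [← Finset.sum_neg_distrib, Real.exp_sum, ENNReal.ofReal_prod_of_nonneg fun i _ => (Real.exp_pos _).le]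
  exact Finset.prod_congr rfl fun i _ => (g_pos (hs i)).symm

theorem int_g (b : ℝ) (hb : 0 ≤ b) : ∫⁻ x, g x * (if b < x then 1 else 0) = ENNReal.ofReal (Real.exp (-b)) := by
  have h1 : ∀ x : ℝ, g x * (if b < x then 1 else 0) =
      (Ioi b).indicator (fun x => ENNReal.ofReal (Real.exp (-x))) x := by
    intro x
    by_cases hx : b < x
    · rw [if_pos hx, mul_one, indicator_of_mem (mem_Ioi.2 hx), g_pos (by linarith)]
    · rw [if_neg hx, mul_zero, indicator_of_notMem (by simpa using hx)]
  simp_rw [h1]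
  rw [lintegral_indicator measurableSet_Ioi, ← ofReal_integral_eq_lintegral_ofReal (integrableOn_exp_neg_Ioi b)
    (ae_of_all _ fun x => (Real.exp_pos _).le), integral_exp_neg_Ioi]

open Classical in
/-- splitting of an exponential integral -/
theorem SP : S_SP := by
  intro κ _ n f hf G B hG hB hB0
  set N := {k : κ // ¬ ∃ i, f i = k} with hN
  set Ψ : (Fin n → ℝ) × (N → ℝ) → ℝ≥0∞ := fun z =>
    ((∏ i, g (z.1 i)) * G z.1) * ∏ k : N, (g (z.2 k) * if B z.1 k < z.2 k then 1 else 0) with hΨ
  have hgp : Measurable fun a : Fin n → ℝ => ∏ i, g (a i) :=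
    Finset.measurable_fun_prod _ fun i _ => g_meas.comp (measurable_pi_apply i)
  have hΨm : Measurable Ψ := by
    refine Measurable.mul ((hgp.mul hG).comp measurable_fst) ?_
    refine Finset.measurable_fun_prod _ fun k _ => ?_
    have h1 : Measurable fun z : (Fin n → ℝ) × (N → ℝ) => z.2 k := (measurable_pi_apply k).comp measurable_snd
    refine (g_meas.comp h1).mul (Measurable.ite ?_ measurable_const measurable_const)
    exact measurableSet_lt ((hB k).comp measurable_fst) h1
  have hmp := mp_split f hf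
  -- step 1
  have h1 : ∫⁻ s in {s : κ → ℝ | ∀ k, 0 < s k}, ENNReal.ofReal (Real.exp (-∑ k, s k)) *
        (G (fun i => s (f i)) * ∏ k ∈ Finset.univ.filter (fun k => k ∉ Set.range f),
          if B (fun i => s (f i)) k < s k then 1 else 0) ≤
      ∫⁻ s : κ → ℝ, Ψ ((fun i => s (f i)), fun k : N => s k) := by
    have hms : MeasurableSet {s : κ → ℝ | ∀ k, 0 < s k} := by
      have : {s : κ → ℝ | ∀ k, 0 < s k} = ⋂ k, {s : κ → ℝ | 0 < s k} := by ext s; simp
      rw [this]
      exact MeasurableSet.iInter fun k => measurableSet_lt measurable_const (measurable_pi_apply k)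
    rw [← lintegral_indicator hms]
    refine lintegral_mono fun s => ?_
    refine indicator_le' (f := fun s : κ → ℝ => ENNReal.ofReal (Real.exp (-∑ k, s k)) *
        (G (fun i => s (f i)) * ∏ k ∈ Finset.univ.filter (fun k => k ∉ Set.range f),
          if B (fun i => s (f i)) k < s k then 1 else 0))
      (g := fun s : κ → ℝ => Ψ ((fun i => s (f i)), fun k : N => s k)) (fun s hs => ?_) (fun s _ => zero_le) s
    have hs' : ∀ k, 0 < s k := hs
    have e1 : ∏ k ∈ Finset.univ.filter (fun k => k ∉ Set.range f),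
        (if B (fun i => s (f i)) k < s k then (1 : ℝ≥0∞) else 0) =
        ∏ k : N, if B (fun i => s (f i)) k < s k then (1 : ℝ≥0∞) else 0 :=
      Finset.prod_subtype _ (fun k => by simp) _
    have e2 : ∏ k, g (s k) = (∏ i, g (s (f i))) * ∏ k : N, g (s k) := by
      rw [← Fintype.prod_subtype_mul_prod_subtype (fun k => ∃ i, f i = k) fun k => g (s k)]
      congr 1
      exact (Fintype.prod_equiv (κ := {k // ∃ i, f i = k}) (Equiv.ofInjective f hf) (fun i => g (s (f i)))
        (fun k => g (s k)) fun i => rfl).symm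
    show ENNReal.ofReal (Real.exp (-∑ k, s k)) * _ ≤ _
    rw [prod_g s hs', e1, e2, hΨ]
    show _ ≤ ((∏ i, g (s (f i))) * G (fun i => s (f i))) *
      ∏ k : N, (g (s k) * if B (fun i => s (f i)) k < s k then 1 else 0)
    rw [Finset.prod_mul_distrib]
    refine le_of_eq ?_
    ring
  refine h1.trans ?_
  rw [hmp.lintegral_comp hΨm, lintegral_prod Ψ hΨm.aemeasurable]
  -- step 2
  have hmsP : MeasurableSet (Pos n) := by
    have : Pos n = ⋂ k, {s : Fin n → ℝ | 0 < s k} := by ext s; simp [Pos]
    rw [this]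
    exact MeasurableSet.iInter fun k => measurableSet_lt measurable_const (measurable_pi_apply k)
  rw [← lintegral_indicator hmsP]
  refine lintegral_mono fun a => ?_
  have h2 : ∫⁻ b, Ψ (a, b) = ((∏ i, g (a i)) * G a) * ∏ k : N, ENNReal.ofReal (Real.exp (-B a k)) := by
    rw [hΨ]
    have hh : ∀ k : N, Measurable fun x : ℝ => g x * (if B a k < x then 1 else 0 : ℝ≥0∞) := fun k =>
      g_meas.mul (Measurable.ite measurableSet_Ioi measurable_const measurable_const)
    have h3 := lintegral_fintype_prod (fun (k : N) (x : ℝ) => g x * (if B a k < x then 1 else 0 : ℝ≥0∞)) hh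
    show ∫⁻ b : N → ℝ, ((∏ i, g (a i)) * G a) * ∏ k : N, (g (b k) * if B a k < b k then 1 else 0) = _
    rw [lintegral_const_mul, h3]
    · congr 1
      exact Finset.prod_congr rfl fun k _ => int_g _ (hB0 a k)
    · exact Finset.measurable_fun_prod _ fun k _ => (hh k).comp (measurable_pi_apply k)
  show ∫⁻ b, Ψ (a, b) ≤ _
  rw [h2]
  by_cases ha : a ∈ Pos n
  · rw [indicator_of_mem ha, prod_g a ha]
    have e3 : ENNReal.ofReal (Real.exp (-∑ k ∈ Finset.univ.filter (fun k => k ∉ Set.range f), B a k)) =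
        ∏ k : N, ENNReal.ofReal (Real.exp (-B a k)) := by
      rw [← Finset.sum_neg_distrib, Real.exp_sum, ENNReal.ofReal_prod_of_nonneg fun i _ => (Real.exp_pos _).le]
      exact Finset.prod_subtype _ (fun k => by simp) _
    rw [e3, mul_assoc]
  · rw [indicator_of_notMem ha]
    have h3 : ∃ i, ¬ 0 < a i := by
      by_contra hcon
      push Not at hcon
      exact ha hcon
    obtain ⟨i, hi⟩ := h3
    have h4 : ∏ i, g (a i) = 0 := Finset.prod_eq_zero (Finset.mem_univ i) (indicator_of_notMem (by simpa using hi) _)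
    rw [h4, zero_mul, zero_mul]

end Pool.Agent.Run7.h304.LP.SPn

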